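import Pool.Agent.H87.EBK.Stmts3

/-!
Board `ebt` (helper87, MP_93721d_nt), row STRW (helper70, after STR of helper45).
-/

namespace Pool.EBK

theorem strw (hL : LOWW) : STRW := by
  intro a b ⟨ha, hb, c, ht, hca, hcb⟩
  refine ⟨v c, hca, hcb, ?_⟩
  intro n
  induction n with
  | zero => exact ⟨c, ht, by simp⟩
  | succ n ih =>
    obtain ⟨d, hd, hvd⟩ := ih
    obtain ⟨e, he, hve⟩ := hL a b d ha hb hd (by omega) (by omega)
    refine ⟨e, he, ?_⟩
    rw [hve, hvd]
    push_cast
    ring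

end Pool.EBK
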